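import Pool.Agent.W661.RC.Stm2

/-!
# Choice of parameters
-/

set_option autoImplicit false

namespace Pool.Agent.W459.RC

open Pool.Agent.W661.RC

theorem params (k : ℕ) {C τ ζ c4 L : ℝ} (hC : 1 ≤ C) (hτ : 0 < τ) (hζ : 0 < ζ) (hc : 0 < c4)
    (hL : 1 ≤ L) :
    ∃ e2 : ℝ, 0 < e2 ∧ ∃ η0 : ℝ, 0 < η0 ∧ η0 ≤ 1 / 2048 ∧ ∀ η : ℝ, 0 < η → η ≤ η0 →
      rho k C η e2 ≤ τ ∧ 1000 * (L + 1) / e2 * √(k * η) ≤ τ / 2 ∧ 32 * √(k * η) ≤ ζ / 4 ∧
      2048 * C * (16 * √(k * (192 * L * √(k * η)))) ≤ c4 := by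
  have hk : (0 : ℝ) ≤ k := Nat.cast_nonneg k
  have hk1 : (0 : ℝ) < k + 1 := by linarith
  have hC0 : 0 < C := by linarith
  have hL0 : 0 < L := by linarith
  obtain ⟨s, hs⟩ : ∃ s : ℝ, s = τ ^ 2 / (1024 * C) := ⟨_, rfl⟩
  have hs0 : 0 < s := by rw [hs]; positivity
  obtain ⟨e2, he2⟩ : ∃ e2 : ℝ, e2 = s ^ 2 / (12 * (k + 1)) := ⟨_, rfl⟩
  have he20 : 0 < e2 := by rw [he2]; positivity
  obtain ⟨r, hr⟩ : ∃ r : ℝ, r = c4 / (2048 * 16 * C) := ⟨_, rfl⟩
  have hr0 : 0 < r := by rw [hr]; positivity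
  obtain ⟨σ, hσ⟩ : ∃ σ : ℝ, σ = min (min (s ^ 2 / (192 * (k + 1))) (τ * e2 / (2000 * (L + 1))))
    (min (ζ / 128) (r ^ 2 / (192 * L * (k + 1)))) := ⟨_, rfl⟩
  have hσ0 : 0 < σ := by
    rw [hσ]
    refine lt_min (lt_min ?_ ?_) (lt_min ?_ ?_) <;> positivity
  have g1 : σ ≤ s ^ 2 / (192 * (k + 1)) := by
    rw [hσ]; exact (min_le_left _ _).trans (min_le_left _ _)
  have g2 : σ ≤ τ * e2 / (2000 * (L + 1)) := by
    rw [hσ]; exact (min_le_left _ _).trans (min_le_right _ _)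
  have g3 : σ ≤ ζ / 128 := by
    rw [hσ]; exact (min_le_right _ _).trans (min_le_left _ _)
  have g4 : σ ≤ r ^ 2 / (192 * L * (k + 1)) := by
    rw [hσ]; exact (min_le_right _ _).trans (min_le_right _ _)
  refine ⟨e2, he20, min (σ ^ 2 / (k + 1)) (min (τ ^ 2 / 32) (1 / 2048)), by positivity,
    (min_le_right _ _).trans (min_le_right _ _), fun η hη hη' => ?_⟩
  have i1 : η ≤ σ ^ 2 / (k + 1) := hη'.trans (min_le_left _ _)
  have i2 : η ≤ τ ^ 2 / 32 := hη'.trans ((min_le_right _ _).trans (min_le_left _ _))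
  have hx : √(k * η) ≤ σ := by
    rw [Real.sqrt_le_left hσ0.le]
    rw [le_div_iff₀ hk1] at i1
    nlinarith
  have hx0 : 0 ≤ √(k * η) := Real.sqrt_nonneg _
  refine ⟨?_, ?_, ?_, ?_⟩
  · unfold rho
    rw [Real.sqrt_le_left hτ.le]
    have j1 : √(3 * k * (2 * e2 + 32 * √(k * η))) ≤ s := by
      rw [Real.sqrt_le_left hs0.le]
      have a1 : 6 * (k + 1) * e2 = s ^ 2 / 2 := by
        rw [he2]; field_simp; norm_num
      have a2 : 96 * (k + 1) * σ ≤ s ^ 2 / 2 := by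
        rw [le_div_iff₀ (by positivity)] at g1
        nlinarith
      have a3 : (k : ℝ) * e2 ≤ (k + 1) * e2 := mul_le_mul_of_nonneg_right (by linarith) he20.le
      have a4 : (k : ℝ) * √(k * η) ≤ (k + 1) * σ :=
        mul_le_mul (by linarith) hx hx0 hk1.le
      nlinarith
    have j2 : C * (32 * √(3 * k * (2 * e2 + 32 * √(k * η)))) ≤ C * (32 * s) :=
      mul_le_mul_of_nonneg_left (by linarith) hC0.le
    have j3 : C * (32 * s) = τ ^ 2 / 32 := by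
      rw [hs]; field_simp; norm_num
    linarith
  · have a1 : √(k * η) ≤ τ * e2 / (2000 * (L + 1)) := hx.trans g2
    rw [le_div_iff₀ (by positivity)] at a1
    rw [div_mul_eq_mul_div, div_le_iff₀ he20]
    linarith
  · linarith
  · have j1 : √(k * (192 * L * √(k * η))) ≤ r := by
      rw [Real.sqrt_le_left hr0.le]
      have a1 : σ * (192 * L * (k + 1)) ≤ r ^ 2 := by
        rwa [le_div_iff₀ (by positivity)] at g4
      have a2 : √(k * η) * k ≤ σ * (k + 1) := mul_le_mul hx (by linarith) hk hσ0.le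
      have a3 := mul_le_mul_of_nonneg_left a2 (by positivity : 0 ≤ 192 * L)
      nlinarith
    have j2 : 2048 * C * (16 * r) = c4 := by
      rw [hr]; field_simp
    calc 2048 * C * (16 * √(k * (192 * L * √(k * η)))) ≤ 2048 * C * (16 * r) := by gcongr
      _ = c4 := j2

end Pool.Agent.W459.RC
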