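import Pool.Agent.W459.RC.DecA
import Pool.Agent.W459.RC.DecB

/-!
# Existence of the decomposition
-/

set_option autoImplicit false

namespace Pool.Agent.W459.RC

open Matrix Pool.Agent.W661.RC Pool.Agent.W683.RC
open scoped ComplexOrder

theorem dec_mono {d k : ℕ} {C η δ : ℝ} {S : Stp d k C η δ} {ζ ζ' : ℝ} (h : ζ ≤ ζ') {n : ℕ}
    {a q : Fin n → Mt d} (hD : Dec S ζ n a q) : Dec S ζ' n a q where
  pr := hD.pr
  nz := hD.nz
  inv := fun i => (hD.inv i).trans (mul_le_mul_of_nonneg_right h (hD.nz i).le)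
  bad := hD.bad
  iso := hD.iso
  sum := Le_trans hD.sum (Le_smul_right Matrix.PosSemidef.one (by linarith))
  near := hD.near.trans (mul_le_mul_of_nonneg_right h (Nat.cast_nonneg d))
  tot := (mul_le_mul_of_nonneg_right (by linarith) (Nat.cast_nonneg d)).trans hD.tot

/-- The decomposition, with fixed parameters. -/
theorem core (hA : ResAP) (hM : MasP) (h2 : Pic2P) (hI : IrrP) (hC : CorP) (hV : CovP)
    {d k : ℕ} {C η δ : ℝ} (S : Stp d k C η δ) {M n : ℕ} {e2 τ δ1 δt θ ζ ζ1 : ℝ} {f : ℕ → Mt d}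
    (hd : 0 < d) (hη : 0 < η) (hη' : η ≤ 1 / 2048) (hC1 : 1 ≤ C)
    (he2 : 0 < e2) (hζ : 0 < ζ) (hζ1 : ζ ≤ 1) (hz1 : ζ1 = ζ / 40) (hθ : θ = ζ1 / 10 ^ 5)
    (hτ : τ = θ * ζ / 10 ^ 4) (hδ : 0 < δ) (hδ1 : δ1 = δ * ζ1 / 1024)
    (hM2 : 10 ^ 4 / (θ * ζ) ≤ (M : ℝ) - 1)
    (hρ : rho k C η e2 ≤ τ) (hx1 : 1000 * (2 ^ M + 1) / e2 * √(k * η) ≤ τ / 2)
    (hx : 32 * √(k * η) ≤ ζ / 4)
    (hx2 : 2048 * C * (16 * √(k * (192 * 2 ^ M * √(k * η)))) ≤ ζ / 100)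
    (hδt : 0 < δt) (hδt1 : δt ≤ τ * δ1 / 12) (hδt2 : δt ≤ δ * (ζ / 100) / 16)
    (hG : Greedy S (2 ^ M) τ n f) (hG2 : ∀ f' : Mt d, ¬ InF S (2 ^ M) (Qs f n) f')
    (hG3 : ∑ i ∈ Finset.range n, tr (f i) ≤ 2 * d) (hD : tr S.D ≤ δt * d) :
    ∃ (n : ℕ) (a q : Fin n → Mt d), Dec S ζ n a q := by
  classical
  have hd' : (0 : ℝ) < d := Nat.cast_pos.2 hd
  have hz1p : 0 < ζ1 := by rw [hz1]; linarith
  have hθp : 0 < θ := by rw [hθ]; positivity
  have hθζ : θ = ζ / 4000000 := by rw [hθ, hz1]; ring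
  have hτp : 0 < τ := by rw [hτ]; positivity
  have hτ2 : τ = θ * ζ / 10000 := by rw [hτ]; norm_num
  have hδ1p : 0 < δ1 := by rw [hδ1]; positivity
  have hτl : τ ≤ θ / 10000 := by
    rw [hτ2]
    have : θ * ζ ≤ θ * 1 := by gcongr
    rw [mul_one] at this
    gcongr
  have hM0 : 0 < (M : ℝ) - 1 := lt_of_lt_of_le (by positivity) hM2
  have hMp : 0 < (M : ℝ) := by linarith
  have hM3 : 10 ^ 4 ≤ ((M : ℝ) - 1) * (θ * ζ) := by
    rwa [div_le_iff₀ (by positivity)] at hM2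
  have hMbig : (2 : ℝ) ≤ M := by
    have h1 : θ * ζ ≤ 1 := by nlinarith
    nlinarith
  have hM2' : 2 ≤ M := by exact_mod_cast hMbig
  have hlam : (1 : ℝ) ≤ 2 ^ M := one_le_pow₀ (by norm_num)
  have hpr : ∀ i < n, IsPr (f i) := fun i hi => (hG i hi).1.pr
  have hQn : (Qs f n).PosSemidef := Qs_psd hpr
  have hfn : ∀ i < n, 0 < tr (f i) := fun i hi => (hG i hi).1.nz
  have hρ0 : 0 ≤ rho k C η e2 := by unfold rho; exact Real.sqrt_nonneg _
  have hx0 : 0 ≤ √(k * η) := Real.sqrt_nonneg _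
  obtain ⟨B3, hB3⟩ : ∃ B3 : ℝ, B3 = (1000 * (2 ^ M + 1) / e2 * √(k * η) + 6 * δt / δ1) * d :=
    ⟨_, rfl⟩
  have hB3l : B3 ≤ τ * d := by
    rw [hB3]
    refine mul_le_mul_of_nonneg_right ?_ hd'.le
    have : 6 * δt / δ1 ≤ τ / 2 := by
      rw [div_le_iff₀ hδ1p]
      linarith
    linarith
  obtain ⟨m1, m2, m3⟩ := hM d k C η δ S M n e2 τ δ1 δt θ B3 f hM2' hη hC1 he2 hτp
    (by rw [hθζ] at hτl; linarith) hδ1p (by rw [hδ1]; nlinarith) (by rw [hθζ] at hτl; linarith)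
    hθp hG hG3 hD hB3
  have hMθ : 40 / ((M : ℝ) - 1) ≤ 40 * τ := by
    rw [div_le_iff₀ hM0, hτ2]
    nlinarith
  have hMθ' : 40 / (M : ℝ) ≤ 40 * τ := by
    refine le_trans ?_ hMθ
    exact div_le_div_of_nonneg_left (by norm_num) hM0 (by linarith)
  -- mass of the choices which are not very good
  have hmass : ∑ i ∈ (Finset.range n).filter
      (fun i => ¬ VG S (2 ^ M) e2 δ1 θ (Qs f i) (f i)), tr (f i) ≤ ζ / 25 * d := by
    refine m1.trans ?_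
    have b1 : (1 + 2 / θ) * B3 ≤ (1 + 2 / θ) * (τ * d) :=
      mul_le_mul_of_nonneg_left hB3l (by positivity)
    have b2 : 1 / θ * (40 / M + 4 * (48 * rho k C η e2 + 6 * τ)) * d ≤ 1 / θ * (256 * τ) * d := by
      have : 40 / (M : ℝ) + 4 * (48 * rho k C η e2 + 6 * τ) ≤ 256 * τ := by linarith
      gcongr
    have b3 : (1 + 2 / θ) * (τ * d) + 1 / θ * (256 * τ) * d = (τ + 258 * (τ / θ)) * d := by ring
    have b4 : τ / θ = ζ / 10000 := by
      rw [hτ2]; field_simp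
    have b5 : (τ + 258 * (τ / θ)) * d ≤ ζ / 25 * d := by
      refine mul_le_mul_of_nonneg_right ?_ hd'.le
      rw [b4]
      rw [hθζ] at hτl
      linarith
    linarith
  -- coverage
  have hcov := hV d k C η δ S (2 ^ M) (192 * 2 ^ M * √(k * η)) (258 * τ) δt (ζ / 100) (Qs f n) hd hη
    hη' hC1 hlam hQn (by positivity) (by positivity) hδt.le (by positivity) hG2 m3
    (by
      refine m2.trans ?_
      have b1 : (40 / ((M : ℝ) - 1) + 4 * (48 * rho k C η e2 + 6 * τ)) * d ≤ (256 * τ) * d := by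
        have : 40 / ((M : ℝ) - 1) + 4 * (48 * rho k C η e2 + 6 * τ) ≤ 256 * τ := by linarith
        gcongr
      linarith) hD hx2 (by rw [hθζ] at hτl; linarith) (by linarith)
  have htot : (1 - ζ / 100 - 4 * (258 * τ)) * d ≤ ∑ i ∈ Finset.range n, tr (f i) :=
    hcov.trans (tr_hh_le (by linarith) hpr)
  -- the very good indices
  obtain ⟨G, hGdef⟩ : ∃ G : Finset ℕ, G = (Finset.range n).filter
      (fun i => VG S (2 ^ M) e2 δ1 θ (Qs f i) (f i)) := ⟨_, rfl⟩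
  have hGsum : (1 - ζ / 16) * d ≤ ∑ i ∈ G, tr (f i) := by
    have b1 := Finset.sum_filter_add_sum_filter_not (Finset.range n)
      (fun i => VG S (2 ^ M) e2 δ1 θ (Qs f i) (f i)) (fun i => tr (f i))
    rw [← hGdef] at b1
    have b2 : (1 - ζ / 16) * d ≤ (1 - ζ / 100 - 4 * (258 * τ)) * d - ζ / 25 * d := by
      rw [← sub_mul]
      refine mul_le_mul_of_nonneg_right ?_ hd'.le
      rw [hθζ] at hτl
      linarith
    linarith
  have hGn : ∀ i ∈ G, i < n := fun i hi => by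
    rw [hGdef] at hi
    exact Finset.mem_range.1 (Finset.mem_filter.1 hi).1
  have hGv : ∀ i ∈ G, VG S (2 ^ M) e2 δ1 θ (Qs f i) (f i) := fun i hi => by
    rw [hGdef] at hi
    exact (Finset.mem_filter.1 hi).2
  have hGle : ∑ i ∈ G, tr (f i) ≤ 2 * d := by
    refine le_trans ?_ hG3
    refine Finset.sum_le_sum_of_subset_of_nonneg ?_ fun i hi _ => ?_
    · rw [hGdef]; exact Finset.filter_subset _ _
    · exact (hfn i (Finset.mem_range.1 hi)).le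
  have hpc : ∀ i : G, ∃ q : Mt d, IsPr q ∧ 0 < tr q ∧ en S.u q ≤ ζ * tr q ∧
      tr (S.D * q) ≤ δ / 4 * tr q ∧ Iso S.u (1 / (2048 * C)) q ∧
      hs (gg (2 ^ M) (Qs f i) * f i - q) ≤ ζ / 2 * tr (f i) ∧
      (1 - ζ / 38) * tr (f i) ≤ tr q := by
    intro i
    have hi := hGn i i.2
    have hv : VG S (2 ^ M) e2 δ1 θ (Qs f i) (f i) := hGv i i.2
    exact piece h2 hI hC S hη hη' hC1 hlam (Qs_psd fun j hj => hpr j (by omega)) he2.le hζ hζ1 hz1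
      hθ hτ hδ hδ1 hρ hx (hG i hi).1 (hG i hi).2 hv
  choose q p1 p2 p3 p4 p5 p6 p7 using hpc
  obtain ⟨e⟩ : Nonempty (Fin G.card ≃ G) := ⟨G.equivFin.symm⟩
  have hsum : ∀ F : ℕ → ℝ, ∑ j : Fin G.card, F (e j) = ∑ i ∈ G, F i := by
    intro F
    rw [Equiv.sum_comp e (fun i : G => F i), Finset.sum_coe_sort G F]
  refine ⟨G.card, fun j => gg (2 ^ M) (Qs f (e j)) * f (e j), fun j => q (e j),
    fun j => p1 _, fun j => p2 _, fun j => p3 _, fun j => p4 _, fun j => p5 _, ?_, ?_, ?_⟩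
  · -- sum
    have b0 : ∀ i ∈ G, gg (2 ^ M) (Qs f i) * f i * (gg (2 ^ M) (Qs f i) * f i)ᴴ =
        gg (2 ^ M) (Qs f i) * f i * gg (2 ^ M) (Qs f i) := by
      intro i hi
      have hi' := hGn i hi
      have hQi : (Qs f i).PosSemidef := Qs_psd fun j hj => hpr j (by omega)
      rw [Matrix.conjTranspose_mul, gg_herm (by linarith) hQi, (hpr i hi').1]
      calc gg (2 ^ M) (Qs f i) * f i * (f i * gg (2 ^ M) (Qs f i))
          = gg (2 ^ M) (Qs f i) * (f i * f i) * gg (2 ^ M) (Qs f i) := by noncomm_ring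
        _ = _ := by rw [(hpr i hi').2]
    have b1 : ∑ j : Fin G.card, gg (2 ^ M) (Qs f (e j)) * f (e j) *
        (gg (2 ^ M) (Qs f (e j)) * f (e j))ᴴ =
        ∑ i ∈ G, gg (2 ^ M) (Qs f i) * f i * gg (2 ^ M) (Qs f i) := by
      rw [Equiv.sum_comp e (fun i : G => gg (2 ^ M) (Qs f i) * f i *
        (gg (2 ^ M) (Qs f i) * f i)ᴴ),
        Finset.sum_coe_sort G (fun i => gg (2 ^ M) (Qs f i) * f i *
        (gg (2 ^ M) (Qs f i) * f i)ᴴ)]
      exact Finset.sum_congr rfl b0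
    have b2 : Le (∑ i ∈ G, gg (2 ^ M) (Qs f i) * f i * gg (2 ^ M) (Qs f i))
        (∑ i ∈ Finset.range n, gg (2 ^ M) (Qs f i) * f i * gg (2 ^ M) (Qs f i)) := by
      unfold Le
      have hsub : G ⊆ Finset.range n := by rw [hGdef]; exact Finset.filter_subset _ _
      rw [← Finset.sum_sdiff hsub, add_sub_cancel_right]
      refine Matrix.posSemidef_sum _ fun i hi => ?_
      have hi' := Finset.mem_range.1 (Finset.mem_sdiff.1 hi).1
      have hQi : (Qs f i).PosSemidef := Qs_psd fun j hj => hpr j (by omega)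
      have h1 := (pr_psd (hpr i hi')).mul_mul_conjTranspose_same (gg (2 ^ M) (Qs f i))
      rwa [gg_herm (by linarith) hQi] at h1
    have b3 := hA d n f (2 ^ M) hlam hpr
    have b4 : Le (((1 + 1 / 2 ^ M : ℝ) : ℂ) • (1 - gg (2 ^ M) (Qs f n)))
        (((1 + ζ : ℝ) : ℂ) • 1) := by
      have c1 : Le (1 - gg (2 ^ M) (Qs f n)) 1 := hh_le_one (by linarith) hQn
      have c2 := Le_smul c1 (c := 1 + 1 / 2 ^ M) (by positivity)
      refine Le_trans c2 (Le_smul_right Matrix.PosSemidef.one ?_)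
      have c3 : (M : ℝ) ≤ 2 ^ M := by exact_mod_cast (Nat.lt_two_pow_self (n := M)).le
      have c4 : 1 / (2 : ℝ) ^ M ≤ 1 / M := by
        exact one_div_le_one_div_of_le hMp c3
      have c5 : 1 / (M : ℝ) ≤ ζ := by
        have : 40 / (M : ℝ) = 40 * (1 / M) := by ring
        rw [this] at hMθ'
        rw [hθζ] at hτl
        linarith
      linarith
    show Le (∑ j : Fin G.card, gg (2 ^ M) (Qs f (e j)) * f (e j) *
        (gg (2 ^ M) (Qs f (e j)) * f (e j))ᴴ) _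
    rw [b1]
    exact Le_trans b2 (Le_trans b3 b4)
  · -- near
    calc ∑ j : Fin G.card, hs (gg (2 ^ M) (Qs f (e j)) * f (e j) - q (e j))
        ≤ ∑ j : Fin G.card, ζ / 2 * tr (f (e j)) := Finset.sum_le_sum fun j _ => p6 _
      _ = ∑ i ∈ G, ζ / 2 * tr (f i) := hsum (fun i => ζ / 2 * tr (f i))
      _ = ζ / 2 * ∑ i ∈ G, tr (f i) := by rw [Finset.mul_sum]
      _ ≤ ζ / 2 * (2 * d) := mul_le_mul_of_nonneg_left hGle (by linarith)
      _ = ζ * d := by ring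
  · -- total
    calc (1 - ζ) * (d : ℝ) ≤ (1 - ζ / 38) * ((1 - ζ / 16) * d) := by
          rw [← mul_assoc]
          refine mul_le_mul_of_nonneg_right ?_ hd'.le
          nlinarith [mul_pos hζ hζ]
      _ ≤ (1 - ζ / 38) * ∑ i ∈ G, tr (f i) := mul_le_mul_of_nonneg_left hGsum (by linarith)
      _ = ∑ i ∈ G, (1 - ζ / 38) * tr (f i) := by rw [Finset.mul_sum]
      _ = ∑ j : Fin G.card, (1 - ζ / 38) * tr (f (e j)) :=
          (hsum (fun i => (1 - ζ / 38) * tr (f i))).symm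
      _ ≤ ∑ j : Fin G.card, tr (q (e j)) := Finset.sum_le_sum fun j _ => p7 _

theorem main (hG : GreP) (hA : ResAP) (hM : MasP) (h2 : Pic2P) (hI : IrrP) (hC : CorP)
    (hV : CovP) : DecP := by
  intro k C ζ0 hC1 hζ0
  obtain ⟨ζ, hζdef⟩ : ∃ ζ : ℝ, ζ = min ζ0 1 := ⟨_, rfl⟩
  have hζ : 0 < ζ := by rw [hζdef]; exact lt_min hζ0 one_pos
  have hζl : ζ ≤ 1 := by rw [hζdef]; exact min_le_right _ _
  have hζl' : ζ ≤ ζ0 := by rw [hζdef]; exact min_le_left _ _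
  obtain ⟨ζ1, hz1⟩ : ∃ ζ1 : ℝ, ζ1 = ζ / 40 := ⟨_, rfl⟩
  obtain ⟨θ, hθ⟩ : ∃ θ : ℝ, θ = ζ1 / 10 ^ 5 := ⟨_, rfl⟩
  obtain ⟨τ, hτ⟩ : ∃ τ : ℝ, τ = θ * ζ / 10 ^ 4 := ⟨_, rfl⟩
  have hz1p : 0 < ζ1 := by rw [hz1]; linarith
  have hθp : 0 < θ := by rw [hθ]; positivity
  have hτp : 0 < τ := by rw [hτ]; positivity
  obtain ⟨M, hM0⟩ := exists_nat_ge (10 ^ 4 / (θ * ζ) + 1)
  have hM2 : 10 ^ 4 / (θ * ζ) ≤ (M : ℝ) - 1 := by linarith
  have hlam : (1 : ℝ) ≤ 2 ^ M := one_le_pow₀ (by norm_num)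
  obtain ⟨e2, he2, η0, hη0, hη1, hpar⟩ := params k (c4 := ζ / 100) (L := 2 ^ M) hC1 hτp hζ
    (by positivity) hlam
  refine ⟨η0, hη0, fun η hη hηl δ hδ => ?_⟩
  obtain ⟨r1, r2, r3, r4⟩ := hpar η hη hηl
  obtain ⟨δ1, hδ1⟩ : ∃ δ1 : ℝ, δ1 = δ * ζ1 / 1024 := ⟨_, rfl⟩
  have hδ1p : 0 < δ1 := by rw [hδ1]; positivity
  refine ⟨min (τ * δ1 / 12) (δ * (ζ / 100) / 16), lt_min (by positivity) (by positivity),
    fun d S hd hD => ?_⟩
  have hMone : 1 ≤ M := by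
    have h1 : (1 : ℝ) ≤ M := by
      have : 0 < 10 ^ 4 / (θ * ζ) := by positivity
      linarith
    exact_mod_cast h1
  have hlam2 : (2 : ℝ) ≤ 2 ^ M := by
    calc (2 : ℝ) = 2 ^ 1 := (pow_one 2).symm
      _ ≤ 2 ^ M := pow_le_pow_right₀ (by norm_num) hMone
  obtain ⟨n, f, g1, g2, g3, -⟩ := hG d k C η δ S (2 ^ M) τ hlam2 hτp
  obtain ⟨n', a, q, hDec⟩ := core hA hM h2 hI hC hV S hd hη (hηl.trans hη1) hC1 he2 hζ hζl hz1 hθ hτ
    hδ hδ1 hM2 r1 r2 r3 r4 (lt_min (by positivity) (by positivity)) (min_le_left _ _)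
    (min_le_right _ _) g1 g2 g3 hD
  exact ⟨n', a, q, dec_mono hζl' hDec⟩

end Pool.Agent.W459.RC
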