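import Pool.Agent.W661.RC.Stm2
import Pool.Agent.W683.RC.Bas

/-!
# Choice of parameters and the pieces of the decomposition
-/

set_option autoImplicit false

namespace Pool.Agent.W459.RC

open Matrix Pool.Agent.W661.RC Pool.Agent.W683.RC
open scoped ComplexOrder

/-- The trace of the soft support is at most the sum of the traces of the projections. -/
theorem tr_hh_le {d : ℕ} {lam : ℝ} (hl : 0 ≤ lam) {f : ℕ → Mt d} {n : ℕ}
    (hf : ∀ i < n, IsPr (f i)) :
    tr (hh lam (Qs f n)) ≤ ∑ i ∈ Finset.range n, tr (f i) := by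
  have hQ : (Qs f n).PosSemidef := Qs_psd hf
  rw [hh_eq hl hQ, tr_smul]
  have h1 : Qs f n * gg lam (Qs f n) = ∑ i ∈ Finset.range n, f i * gg lam (Qs f n) := by
    unfold Qs
    rw [Finset.sum_mul]
  rw [h1, tr_sum, Finset.mul_sum]
  refine Finset.sum_le_sum fun i hi => ?_
  have hi' := Finset.mem_range.1 hi
  have hp := pr_psd (hf i hi')
  have h2 : Le (f i) (Qs f n) := by
    unfold Le Qs
    rw [← Finset.sum_erase_eq_sub hi]
    exact Matrix.posSemidef_sum _ fun j hj =>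
      pr_psd (hf j (Finset.mem_range.1 (Finset.mem_of_mem_erase hj)))
  have h3 := Le_mul_tr (gg_anti hl hp hQ h2) hp
  have h4 : lam * tr (f i * gg lam (f i)) = tr (hh lam (f i)) := by
    rw [hh_eq hl hp, tr_smul]
  have h5 : hh lam (f i) * f i = hh lam (f i) := by
    rw [hh_eq' hl hp, smul_mul_assoc, mul_assoc, (hf i hi').2]
  have h6 := tr_mul_le_of_le_one (hh_le_one hl hp) hp
  rw [h5] at h6
  calc lam * tr (f i * gg lam (Qs f n)) ≤ lam * tr (f i * gg lam (f i)) :=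
        mul_le_mul_of_nonneg_left h3 hl
    _ = tr (hh lam (f i)) := h4
    _ ≤ tr (f i) := h6

theorem JJ_ge {d : ℕ} {lam : ℝ} (hl : 0 ≤ lam) {Q q : Mt d} (hQ : Q.PosSemidef)
    (hq : IsPr q) : tr q ≤ JJ lam Q q := by
  unfold JJ
  have := tr_mul_pr_nonneg (hh_psd hl hQ) hq
  linarith

theorem JJ_nonneg {d : ℕ} {lam : ℝ} (hl : 0 ≤ lam) {Q q : Mt d} (hQ : Q.PosSemidef)
    (hq : IsPr q) : 0 ≤ JJ lam Q q := (pr_tr_nonneg hq).trans (JJ_ge hl hQ hq)

/-- The piece obtained from a very good choice. -/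
theorem piece (h2 : Pic2P) (hI : IrrP) (hC : CorP) {d k : ℕ} {C η δ : ℝ} (S : Stp d k C η δ)
    {lam e2 τ δ1 θ ζ ζ1 : ℝ} {Q f : Mt d}
    (hη : 0 < η) (hη' : η ≤ 1 / 2048) (hC1 : 1 ≤ C) (hlam : 1 ≤ lam) (hQ : Q.PosSemidef)
    (he2 : 0 ≤ e2) (hζ : 0 < ζ) (hζ1 : ζ ≤ 1) (hz1 : ζ1 = ζ / 40) (hθ : θ = ζ1 / 10 ^ 5)
    (hτ : τ = θ * ζ / 10 ^ 4) (hδ : 0 < δ) (hδ1 : δ1 = δ * ζ1 / 1024)
    (hρ : rho k C η e2 ≤ τ) (hx : 32 * √(k * η) ≤ ζ / 4)
    (hf : InF S lam Q f)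
    (hmin : ∀ f' : Mt d, InF S lam Q f' → JJ lam Q f ≤ (1 + τ) * JJ lam Q f')
    (hVG : VG S lam e2 δ1 θ Q f) :
    ∃ q : Mt d, IsPr q ∧ 0 < tr q ∧ en S.u q ≤ ζ * tr q ∧ tr (S.D * q) ≤ δ / 4 * tr q ∧
      Iso S.u (1 / (2048 * C)) q ∧ hs (gg lam Q * f - q) ≤ ζ / 2 * tr f ∧
      (1 - ζ / 38) * tr f ≤ tr q := by
  have hl : 0 ≤ lam := by linarith
  have hz1p : 0 < ζ1 := by rw [hz1]; linarith
  have hz1l : ζ1 ≤ 1 / 40 := by rw [hz1]; linarith
  have hθp : 0 < θ := by rw [hθ]; positivity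
  have hθl : θ ≤ 1 / 4000000 := by
    rw [hθ]
    have : ζ1 / 10 ^ 5 ≤ (1 / 40) / 10 ^ 5 := by gcongr
    refine this.trans (by norm_num)
  have hτp : 0 < τ := by rw [hτ]; positivity
  have hτl : τ ≤ θ / 10000 := by
    rw [hτ]
    have : θ * ζ ≤ θ * 1 := by gcongr
    rw [mul_one] at this
    have h10 : (10 : ℝ) ^ 4 = 10000 := by norm_num
    rw [h10]
    gcongr
  have hδ1p : 0 < δ1 := by rw [hδ1]; positivity
  have hρ0 : 0 ≤ rho k C η e2 := by unfold rho; exact Real.sqrt_nonneg _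
  obtain ⟨v1, v2, v3, v4, v5, v6⟩ := hVG
  obtain ⟨q, hqF, hq1, hq2, hq3, hq4, hq5, hq6⟩ := h2 d k C η δ S lam e2 τ δ1 θ Q f hη hC1 hlam hQ
    he2 hτp (by linarith) hδ1p.le (by rw [hδ1]; nlinarith) (by linarith) hθp.le (by linarith)
    hf hmin v1 v2 v3 v4 v5 v6
  have hqp := hqF.pr
  have hqn := hqF.nz
  have hfp := hf.pr
  have hfn := hf.nz
  obtain ⟨q', c1, c2, c3, c4, c5⟩ := hC d k S.u (1 / (2048 * C)) ζ1 q S.hu hqp hqn (by positivity)
    hz1p (by linarith)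
    (hI d k C η δ S lam (32 * θ + 8 * τ) (32 * δ1) (32 * θ + 8 * τ + 4 * τ) ζ1 Q q hη hη' hC1 hlam hQ
      hqp hqn hz1p (by
        have : θ = ζ1 / 100000 := by rw [hθ]; norm_num
        linarith) (by rw [hδ1]; nlinarith [mul_pos hz1p hδ]) (by linarith) hδ.le
      (hq1.trans (by
        have : 32 * θ + 8 * rho k C η e2 ≤ 32 * θ + 8 * τ := by linarith
        exact mul_le_mul_of_nonneg_right this hqn.le)) hq2 hq3
      (fun f' hf' => by
        have h1 := hq4 f' hf'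
        have h3 := JJ_ge hl hQ hqp
        have h4 := JJ_nonneg hl hQ hf'.pr
        have h5 : (1 + 32 * θ + 8 * rho k C η e2 + 4 * τ) * JJ lam Q f' ≤
            (1 + (32 * θ + 8 * τ + 4 * τ)) * JJ lam Q f' :=
          mul_le_mul_of_nonneg_right (by linarith) h4
        linarith))
  have t1 : tr q - tr q' ≤ ζ1 * tr q := by rw [← tr_sub]; exact c3
  have t2 : (1 - ζ1) * tr q ≤ tr q' := by linarith
  have t3 : 0 < tr q' := by
    have : 0 < (1 - ζ1) * tr q := mul_pos (by linarith) hqn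
    linarith
  have t4 : tr q ≤ 2 * tr q' := by nlinarith
  -- comparison of the traces of `q` and `f`
  have hsum : θ + rho k C η e2 + τ ≤ 1.001 * θ := by linarith
  have hqf : hs (q - f) ≤ 2002 * θ * tr f := by
    refine hq5.trans ?_
    have : 2000 * (θ + rho k C η e2 + τ) ≤ 2002 * θ := by linarith
    exact mul_le_mul_of_nonneg_right this hfn.le
  have hhf : tr (hh lam Q * f) ≤ 101 * θ * tr f := by
    refine hq6.trans ?_
    have : 100 * (θ + rho k C η e2 + τ) ≤ 101 * θ := by linarith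
    exact mul_le_mul_of_nonneg_right this hfn.le
  have habs := pr_abs_tr_sub hqp hfp
  have hab := abs_le.1 habs
  have hθζ : θ = ζ / 4000000 := by rw [hθ, hz1]; ring
  have t5 : tr q ≤ 1.001 * tr f := by
    have : 2002 * θ * tr f ≤ 0.001 * tr f := mul_le_mul_of_nonneg_right (by linarith) hfn.le
    linarith [hab.2]
  have t6 : (1 - ζ / 1000) * tr f ≤ tr q := by
    have : 2002 * θ * tr f ≤ (ζ / 1000) * tr f := mul_le_mul_of_nonneg_right (by
      rw [hθζ]; linarith) hfn.le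
    linarith [hab.1]
  have hq'q : Le q' q := pr_le c1 hqp c2
  refine ⟨q', c1, t3, ?_, ?_, c5, ?_, ?_⟩
  · -- invariance
    have e1 : en S.u q ≤ ζ / 4 * tr q := hqF.inv.trans (mul_le_mul_of_nonneg_right hx hqn.le)
    have e2' : 1 / (2048 * C) * ζ1 * tr q ≤ ζ / 4 * tr q := by
      refine mul_le_mul_of_nonneg_right ?_ hqn.le
      have h1 : 1 / (2048 * C) ≤ 1 := by
        rw [div_le_one (by positivity)]
        linarith
      calc 1 / (2048 * C) * ζ1 ≤ 1 * ζ1 := mul_le_mul_of_nonneg_right h1 hz1p.le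
        _ ≤ ζ / 4 := by rw [hz1]; linarith
    calc en S.u q' ≤ ζ / 4 * tr q + ζ / 4 * tr q := by linarith
      _ = ζ / 2 * tr q := by ring
      _ ≤ ζ / 2 * (2 * tr q') := mul_le_mul_of_nonneg_left t4 (by linarith)
      _ = ζ * tr q' := by ring
  · -- defect
    have e1 : tr (S.D * q') ≤ tr (S.D * q) := Le_mul_tr hq'q S.hD
    have e3 : 32 * δ1 * tr q ≤ δ / 8 * tr q := by
      refine mul_le_mul_of_nonneg_right ?_ hqn.le
      rw [hδ1]
      nlinarith
    calc tr (S.D * q') ≤ δ / 8 * tr q := by linarith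
      _ ≤ δ / 8 * (2 * tr q') := mul_le_mul_of_nonneg_left t4 (by linarith)
      _ = δ / 4 * tr q' := by ring
  · -- nearness
    have e1 : gg lam Q * f - q' = -(hh lam Q * f) + -(q - f) + (q - q') := by
      unfold hh
      noncomm_ring
    rw [e1]
    refine (hs_add3_le _ _ _).trans ?_
    rw [hs_neg, hs_neg]
    have e2' := hs_mul_pr_le (hh_psd hl hQ) (hh_le_one hl hQ) hfp
    have e3 : hs (q - q') = tr (q - q') := (pr_tr_eq_hs (pr_sub c1 hqp c2)).symm
    have e4 : ζ1 * tr q ≤ ζ1 * (1.001 * tr f) := mul_le_mul_of_nonneg_left t5 hz1p.le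
    have e5 : 3 * (101 * θ * tr f) + 3 * (2002 * θ * tr f) + 3 * (ζ1 * (1.001 * tr f)) ≤
        ζ / 2 * tr f := by
      have : 3 * (101 * θ * tr f) + 3 * (2002 * θ * tr f) + 3 * (ζ1 * (1.001 * tr f)) =
        (3 * (101 * θ) + 3 * (2002 * θ) + 3 * (ζ1 * 1.001)) * tr f := by ring
      rw [this]
      refine mul_le_mul_of_nonneg_right ?_ hfn.le
      rw [hθζ, hz1]
      linarith
    linarith
  · -- total
    have e1 : (1 - ζ / 38) * tr f ≤ (1 - ζ1) * ((1 - ζ / 1000) * tr f) := by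
      rw [← mul_assoc]
      refine mul_le_mul_of_nonneg_right ?_ hfn.le
      rw [hz1]
      nlinarith [mul_pos hζ hζ]
    have e2' : (1 - ζ1) * ((1 - ζ / 1000) * tr f) ≤ (1 - ζ1) * tr q :=
      mul_le_mul_of_nonneg_left t6 (by linarith)
    linarith

end Pool.Agent.W459.RC
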